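import Pool.Agent.W793.SCH.Stm

open MeasureTheory Matrix Filter
open scoped Topology

namespace Pool.Agent.W374.SCH
open Pool.Agent.W793.SCH

noncomputable section

theorem lam_nonneg {d : ℕ} (θ : Fin d → ℝ) : 0 ≤ lam θ :=
  Finset.sum_nonneg fun i _ => by linarith [Real.cos_le_one (θ i)]

theorem lam_le {d : ℕ} (θ : Fin d → ℝ) : lam θ ≤ 4 * d := by
  unfold lam
  calc (∑ i, (2 - 2 * Real.cos (θ i))) ≤ ∑ _i : Fin d, (4 : ℝ) :=
        Finset.sum_le_sum fun i _ => by linarith [Real.neg_one_le_cos (θ i)]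
    _ = 4 * d := by simp; ring

theorem continuous_lam {d : ℕ} : Continuous (lam : (Fin d → ℝ) → ℝ) := by
  unfold lam
  fun_prop

/-- One factor as a complex integral. -/
theorem hk_complex (t : ℝ) (n : ℤ) :
    ∫ θ in Set.Icc (-Real.pi) Real.pi, Complex.exp (Complex.I * (n * θ : ℝ)) *
      (Real.exp (-(t * (2 - 2 * Real.cos θ))) : ℂ) = ((2 * Real.pi * hk t n : ℝ) : ℂ) := by
  rw [MeasureTheory.integral_Icc_eq_integral_Ioc,
    ← intervalIntegral.integral_of_le (by linarith [Real.pi_pos])]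
  have e : ∀ θ : ℝ, Complex.exp (Complex.I * (n * θ : ℝ)) *
      (Real.exp (-(t * (2 - 2 * Real.cos θ))) : ℂ) =
      ((Real.cos (n * θ) * Real.exp (-(t * (2 - 2 * Real.cos θ))) : ℝ) : ℂ) +
      ((Real.sin (n * θ) * Real.exp (-(t * (2 - 2 * Real.cos θ))) : ℝ) : ℂ) * Complex.I := by
    intro θ
    rw [mul_comm Complex.I, Complex.exp_mul_I]
    push_cast
    ring
  simp_rw [e]
  rw [intervalIntegral.integral_add
    (Continuous.intervalIntegrable (by fun_prop) _ _)
    (Continuous.intervalIntegrable (by fun_prop) _ _),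
    intervalIntegral.integral_mul_const, intervalIntegral.integral_ofReal,
    intervalIntegral.integral_ofReal]
  have hodd : ∫ θ in (-Real.pi)..Real.pi, Real.sin (n * θ) *
      Real.exp (-(t * (2 - 2 * Real.cos θ))) = 0 := by
    have h := intervalIntegral.integral_comp_neg (a := -Real.pi) (b := Real.pi)
      (fun θ : ℝ => Real.sin (n * θ) * Real.exp (-(t * (2 - 2 * Real.cos θ))))
    simp only [mul_neg, Real.sin_neg, Real.cos_neg, neg_mul, neg_neg,
      intervalIntegral.integral_neg] at h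
    linarith
  rw [hodd]
  unfold hk
  have hpi : Real.pi ≠ 0 := Real.pi_ne_zero
  have : (2 * Real.pi * (1 / (2 * Real.pi) * ∫ θ in (-Real.pi)..Real.pi, Real.cos (n * θ) *
    Real.exp (-(t * (2 - 2 * Real.cos θ)))) : ℝ) = ∫ θ in (-Real.pi)..Real.pi, Real.cos (n * θ) *
    Real.exp (-(t * (2 - 2 * Real.cos θ))) := by
    field_simp
  rw [this]
  simp

theorem prod_hk (d : ℕ) (t : ℝ) (z : Fin d → ℤ) :
    ∏ i, hk t (z i) = 1 / (2 * Real.pi) ^ d *
      ∫ θ in box d, Real.exp (-(t * lam θ)) * Real.cos (∑ i, θ i * z i) := by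
  have h1 : ∫ θ in box d, ∏ i, (Complex.exp (Complex.I * (z i * θ i : ℝ)) *
      (Real.exp (-(t * (2 - 2 * Real.cos (θ i)))) : ℂ)) =
      ∏ i, ((2 * Real.pi * hk t (z i) : ℝ) : ℂ) := by
    simp_rw [← hk_complex]
    rw [← integral_fintype_prod_eq_prod]
    congr 1
    exact Measure.restrict_pi_pi _ _
  have h2 : ∀ θ : Fin d → ℝ, ∏ i, (Complex.exp (Complex.I * (z i * θ i : ℝ)) *
      (Real.exp (-(t * (2 - 2 * Real.cos (θ i)))) : ℂ)) =
      ((Real.exp (-(t * lam θ)) * Real.cos (∑ i, θ i * z i) : ℝ) : ℂ) +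
      ((Real.exp (-(t * lam θ)) * Real.sin (∑ i, θ i * z i) : ℝ) : ℂ) * Complex.I := by
    intro θ
    rw [Finset.prod_mul_distrib, ← Complex.exp_sum, ← Finset.mul_sum, ← Complex.ofReal_prod,
      ← Real.exp_sum, ← Complex.ofReal_sum, mul_comm Complex.I, Complex.exp_mul_I]
    have e1 : ∑ i, (z i * θ i : ℝ) = ∑ i, θ i * z i := Finset.sum_congr rfl fun i _ => mul_comm _ _
    have e2 : ∑ i, -(t * (2 - 2 * Real.cos (θ i))) = -(t * lam θ) := by
      unfold lam; rw [Finset.sum_neg_distrib, Finset.mul_sum]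
    rw [e1, e2]
    push_cast
    ring
  have h3 := congrArg Complex.re h1
  have hint : Integrable (fun θ : Fin d → ℝ => ∏ i, (Complex.exp (Complex.I * (z i * θ i : ℝ)) *
      (Real.exp (-(t * (2 - 2 * Real.cos (θ i)))) : ℂ))) (volume.restrict (box d)) := by
    have hc : Continuous (fun θ : Fin d → ℝ => ∏ i, (Complex.exp (Complex.I * (z i * θ i : ℝ)) *
      (Real.exp (-(t * (2 - 2 * Real.cos (θ i)))) : ℂ))) := by fun_prop
    exact hc.continuousOn.integrableOn_compact (isCompact_univ_pi fun _ => isCompact_Icc)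
  have h4 : (∫ θ in box d, ∏ i, (Complex.exp (Complex.I * (z i * θ i : ℝ)) *
      (Real.exp (-(t * (2 - 2 * Real.cos (θ i)))) : ℂ))).re =
      ∫ θ in box d, Real.exp (-(t * lam θ)) * Real.cos (∑ i, θ i * z i) := by
    have := integral_re hint
    simp only [RCLike.re_eq_complex_re] at this
    rw [← this]
    congr 1
    funext θ
    rw [h2 θ]
    simp only [Complex.add_re, Complex.ofReal_re, Complex.re_ofReal_mul, Complex.I_re, mul_zero,
      add_zero]
  rw [h4, ← Complex.ofReal_prod, Complex.ofReal_re, Finset.prod_mul_distrib] at h3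
  rw [h3]
  simp only [Finset.prod_const, Finset.card_univ, Fintype.card_fin]
  have hpi : Real.pi ≠ 0 := Real.pi_ne_zero
  field_simp

/-- The weights. -/
def wt (d k : ℕ) (t : ℝ) : ℝ :=
  Real.exp (-(4 * d * t)) * (4 * d * t) ^ k / k.factorial

theorem wt_nonneg (d k : ℕ) {t : ℝ} (ht : 0 ≤ t) : 0 ≤ wt d k t := by
  unfold wt; positivity

theorem hasSum_theta (d : ℕ) (hd : 1 ≤ d) (t : ℝ) (θ : Fin d → ℝ) :
    HasSum (fun k : ℕ => wt d k t * (1 - lam θ / (4 * d)) ^ k) (Real.exp (-(t * lam θ))) := by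
  have hd' : (d : ℝ) ≠ 0 := by positivity
  have h := (NormedSpace.expSeries_div_hasSum_exp (4 * d * t * (1 - lam θ / (4 * d)))).mul_left
    (Real.exp (-(4 * d * t)))
  rw [← Real.exp_eq_exp_ℝ, ← Real.exp_add] at h
  have e : -(4 * d * t) + 4 * d * t * (1 - lam θ / (4 * d)) = -(t * lam θ) := by
    field_simp; ring
  rw [e] at h
  refine h.congr_fun fun k => ?_
  unfold wt
  rw [mul_pow (4 * (d : ℝ) * t)]
  ring

theorem hasSum_prod_hk (hF : S_FR) (d : ℕ) (hd : 1 ≤ d) (z : Fin d → ℤ) {t : ℝ} (ht : 0 ≤ t) :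
    HasSum (fun k : ℕ => wt d k t * pk d k z) (∏ i, hk t (z i)) := by
  have hd0 : (0 : ℝ) < d := by exact_mod_cast hd
  have hbox : IsCompact (box d) := isCompact_univ_pi fun _ => isCompact_Icc
  have hcont : ∀ k : ℕ, Continuous (fun θ : Fin d → ℝ =>
      wt d k t * (1 - lam θ / (4 * d)) ^ k * Real.cos (∑ i, θ i * z i)) := by
    intro k
    have := @continuous_lam d
    fun_prop
  have hab : ∀ θ : Fin d → ℝ, |1 - lam θ / (4 * d)| ≤ 1 := by
    intro θ
    have h1 : 0 ≤ lam θ / (4 * d) := div_nonneg (lam_nonneg θ) (by positivity)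
    have h2 : lam θ / (4 * d) ≤ 1 := by
      rw [div_le_one (by positivity)]; exact lam_le θ
    rw [abs_le]; constructor <;> linarith
  have hnorm : ∀ (k : ℕ) (θ : Fin d → ℝ),
      ‖wt d k t * (1 - lam θ / (4 * d)) ^ k * Real.cos (∑ i, θ i * z i)‖ ≤ wt d k t := by
    intro k θ
    rw [norm_mul, norm_mul, Real.norm_eq_abs, Real.norm_eq_abs, Real.norm_eq_abs, abs_pow,
      abs_of_nonneg (wt_nonneg d k ht)]
    have h1 : |1 - lam θ / (4 * d)| ^ k ≤ 1 := pow_le_one₀ (abs_nonneg _) (hab θ)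
    have h2 := Real.abs_cos_le_one (∑ i, θ i * z i)
    calc _ ≤ wt d k t * 1 * 1 := by
          gcongr
          · exact mul_nonneg (wt_nonneg d k ht) zero_le_one
          · exact wt_nonneg d k ht
      _ = _ := by ring
  have hsw : Summable (fun k : ℕ => wt d k t) := by
    have h := (hasSum_theta d hd t (fun _ => 0)).summable
    refine h.congr fun k => ?_
    simp [lam]
  have hint : ∀ k : ℕ, Integrable (fun θ : Fin d → ℝ =>
      wt d k t * (1 - lam θ / (4 * d)) ^ k * Real.cos (∑ i, θ i * z i))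
      (volume.restrict (box d)) := fun k => (hcont k).continuousOn.integrableOn_compact hbox
  have hsum : Summable (fun k : ℕ => ∫ θ in box d,
      ‖wt d k t * (1 - lam θ / (4 * d)) ^ k * Real.cos (∑ i, θ i * z i)‖) := by
    refine Summable.of_nonneg_of_le (fun k => integral_nonneg fun _ => norm_nonneg _) (fun k => ?_)
      (hsw.mul_left (volume.real (box d)))
    have := hbox.measure_lt_top (μ := (volume : Measure (Fin d → ℝ)))
    calc (∫ θ in box d, ‖wt d k t * (1 - lam θ / (4 * d)) ^ k * Real.cos (∑ i, θ i * z i)‖)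
        ≤ ∫ _θ in box d, wt d k t := by
          refine setIntegral_mono (hint k).norm (integrableOn_const this.ne) fun θ => hnorm k θ
      _ = volume.real (box d) * wt d k t := by
          rw [setIntegral_const, smul_eq_mul]
  have h := hasSum_integral_of_summable_integral_norm hint hsum
  have h' := h.mul_left (1 / (2 * Real.pi) ^ d)
  have e1 : (fun k : ℕ => wt d k t * pk d k z) = fun k : ℕ => 1 / (2 * Real.pi) ^ d *
      ∫ θ in box d, wt d k t * (1 - lam θ / (4 * d)) ^ k * Real.cos (∑ i, θ i * z i) := by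
    funext k
    rw [hF d k hd z, mul_left_comm, ← integral_const_mul]
    simp_rw [mul_assoc]
  have e2 : ∏ i, hk t (z i) = 1 / (2 * Real.pi) ^ d * ∫ θ in box d, ∑' k : ℕ,
      wt d k t * (1 - lam θ / (4 * d)) ^ k * Real.cos (∑ i, θ i * z i) := by
    rw [prod_hk]
    congr 1
    refine integral_congr_ae (Filter.Eventually.of_forall fun θ => ?_)
    exact ((hasSum_theta d hd t θ).mul_right (Real.cos (∑ i, θ i * z i))).tsum_eq.symm
  rw [e1, e2]
  exact h'

theorem integral_wt (d k : ℕ) (hd : 1 ≤ d) :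
    IntegrableOn (wt d k) (Set.Ioi 0) ∧ ∫ t in Set.Ioi (0 : ℝ), wt d k t = 1 / (4 * d) := by
  have hd0 : (0 : ℝ) < d := by exact_mod_cast hd
  have h := Real.integral_rpow_mul_exp_neg_mul_Ioi (a := (k : ℝ) + 1) (r := 4 * d)
    (by positivity) (by positivity)
  have hI : ∫ t in Set.Ioi (0 : ℝ), wt d k t = 1 / (4 * d) := by
    have e : ∀ t ∈ Set.Ioi (0 : ℝ), wt d k t =
        (4 * d : ℝ) ^ k / k.factorial * (t ^ ((k : ℝ) + 1 - 1) * Real.exp (-(4 * d * t))) := by
      intro t ht
      unfold wt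
      rw [add_sub_cancel_right, Real.rpow_natCast, mul_pow]
      ring
    rw [setIntegral_congr_fun measurableSet_Ioi e, integral_const_mul, h, Real.Gamma_nat_eq_factorial]
    have hk : (k.factorial : ℝ) ≠ 0 := by positivity
    rw [show ((k : ℝ) + 1) = ((k + 1 : ℕ) : ℝ) by push_cast; ring, Real.rpow_natCast, one_div,
      inv_pow, pow_succ]
    field_simp
  refine ⟨?_, hI⟩
  by_contra hne
  rw [integral_undef hne] at hI
  have : (0 : ℝ) < 1 / (4 * d) := by positivity
  linarith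

theorem t_GI (hF : S_FR) (hS : S_SUP) : S_GI := by
  intro d hd z
  have hd1 : 1 ≤ d := by omega
  have hd0 : (0 : ℝ) < d := by exact_mod_cast hd1
  obtain ⟨C, hC, hb⟩ := hS d hd1
  have hsp : Summable fun k => pk d k z := by
    rw [← summable_nat_add_iff 1]
    have hs : Summable fun k : ℕ => C * (1 / ((k + 1 : ℕ) : ℝ) ^ ((3 : ℝ) / 2)) := by
      refine Summable.mul_left _ ?_
      exact (summable_nat_add_iff 1).2 (Real.summable_one_div_nat_rpow.2 (by norm_num))
    refine Summable.of_nonneg_of_le (fun k => (hb (k + 1) z).1) (fun k => ?_) hs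
    refine ((hb (k + 1) z).2 (by omega)).trans ?_
    have h1 : (1 : ℝ) ≤ ((k + 1 : ℕ) : ℝ) := by push_cast; linarith [k.cast_nonneg (α := ℝ)]
    have h2 : Real.sqrt ((k + 1 : ℕ) : ℝ) ^ d = ((k + 1 : ℕ) : ℝ) ^ ((d : ℝ) / 2) := by
      rw [Real.sqrt_eq_rpow, ← Real.rpow_natCast, ← Real.rpow_mul (by positivity)]
      congr 1
      ring
    rw [h2, div_eq_mul_one_div]
    have h3 : ((k + 1 : ℕ) : ℝ) ^ ((3 : ℝ) / 2) ≤ ((k + 1 : ℕ) : ℝ) ^ ((d : ℝ) / 2) := by
      refine Real.rpow_le_rpow_of_exponent_le h1 ?_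
      have : (3 : ℝ) ≤ d := by exact_mod_cast hd
      linarith
    gcongr
  set g : ℝ → ENNReal := fun t => ∑' k : ℕ, ENNReal.ofReal (wt d k t * pk d k z) with hg
  have hmw : ∀ k, Measurable (fun t => wt d k t * pk d k z) := by
    intro k
    unfold wt
    fun_prop
  have hgm : Measurable g := Measurable.tsum fun k => (hmw k).ennreal_ofReal
  have hgl : ∫⁻ t in Set.Ioi (0 : ℝ), g t = ENNReal.ofReal (green d z) := by
    rw [hg, lintegral_tsum fun k => ((hmw k).ennreal_ofReal).aemeasurable]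
    have e : ∀ k, ∫⁻ t in Set.Ioi (0 : ℝ), ENNReal.ofReal (wt d k t * pk d k z) =
        ENNReal.ofReal (1 / (4 * d) * pk d k z) := by
      intro k
      rw [← (integral_wt d k hd1).2, ← integral_mul_const]
      refine (ofReal_integral_eq_lintegral_ofReal ((integral_wt d k hd1).1.mul_const _) ?_).symm
      refine (ae_restrict_iff' measurableSet_Ioi).2 (Filter.Eventually.of_forall fun t ht => ?_)
      exact mul_nonneg (wt_nonneg d k (le_of_lt ht)) (hb k z).1
    simp_rw [e]
    rw [← ENNReal.ofReal_tsum_of_nonneg (fun k => mul_nonneg (by positivity) (hb k z).1)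
      (hsp.mul_left _), tsum_mul_left]
    rfl
  have hgt : ∀ t ∈ Set.Ioi (0 : ℝ), ∏ i, hk t (z i) = (g t).toReal := by
    intro t ht
    have ht' : 0 ≤ t := le_of_lt ht
    have hsum := hasSum_prod_hk hF d hd1 z ht'
    rw [hg]
    simp only
    rw [ENNReal.tsum_toReal_eq fun k => ENNReal.ofReal_ne_top, ← hsum.tsum_eq]
    refine tsum_congr fun k => ?_
    rw [ENNReal.toReal_ofReal (mul_nonneg (wt_nonneg d k ht') (hb k z).1)]
  have hgr : 0 ≤ green d z := by
    unfold green
    exact mul_nonneg (by positivity) (tsum_nonneg fun k => (hb k z).1)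
  have hfin : ∫⁻ t in Set.Ioi (0 : ℝ), g t ≠ ⊤ := by rw [hgl]; exact ENNReal.ofReal_ne_top
  constructor
  · exact (integrableOn_congr_fun hgt measurableSet_Ioi).2
      (integrable_toReal_of_lintegral_ne_top hgm.aemeasurable hfin)
  · rw [setIntegral_congr_fun measurableSet_Ioi hgt, integral_toReal hgm.aemeasurable
      (ae_lt_top hgm hfin), hgl, ENNReal.toReal_ofReal hgr]

end

end Pool.Agent.W374.SCH
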